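import Pool.Agent.Lib.MP_75c153_gt.Cf.CfGrp

/-! A triangular family of windows over any finite quotient of a free group of rank two. -/

namespace Pool.Agent.Lib.MP_570070_gt.Cf

open Pool.Agent.Lib.MP_75c153_gt.Cf

/-- The entry `i` of the tuple with `z.1` up to `t`, then `z.2.1`, `z.2.2`, then `1`. -/
def winTup {P : Type} [Group P] (t : ℕ) (z : P × P × P) (i : ℕ) : P :=
  if i ≤ t then z.1 else if i = t + 1 then z.2.1 else if i = t + 2 then z.2.2 else 1

/-- The window tuple as a homomorphism. -/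
def winDiag {P : Type} [Group P] (n t : ℕ) : P × P × P →* (Fin n → P) where
  toFun z := fun i => winTup t z i.val
  map_one' := by funext i; simp [winTup]
  map_mul' u v := by
    funext i
    simp only [winTup, Pi.mul_apply]
    split_ifs <;> simp

/-- Left multiplication by the window tuple. -/
def winAct {P : Type} [Group P] (n t : ℕ) : P × P × P →* Equiv.Perm (Fin n → P) :=
  (MulAction.toPermHom (Fin n → P) (Fin n → P)).comp (winDiag n t)

theorem winAct_apply {P : Type} [Group P] (n t : ℕ) (z : P × P × P) (w : Fin n → P) (i : Fin n) :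
    winAct n t z w i = winTup t z i.val * w i := rfl

theorem winTup_conj {P : Type} [Group P] {s t : ℕ} (hts : t ≤ s) (d z : P × P × P) (i : ℕ) :
    winTup s d i * winTup t z i =
      winTup t ((d.1, winTup s d (t + 1), winTup s d (t + 2)) * z *
        (d.1, winTup s d (t + 1), winTup s d (t + 2))⁻¹) i * winTup s d i := by
  by_cases h0 : i ≤ t
  · have h1 : winTup s d i = d.1 := if_pos (h0.trans hts)
    rw [h1]
    simp [winTup, h0]
  by_cases h1 : i = t + 1
  · subst h1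
    generalize winTup s d (t + 1) = a
    generalize winTup s d (t + 2) = b
    simp [winTup]
  by_cases h2 : i = t + 2
  · subst h2
    generalize winTup s d (t + 1) = a
    generalize winTup s d (t + 2) = b
    simp [winTup]
  · generalize winTup s d i = e
    simp [winTup, h0, h1, h2]

theorem winAct_act {P : Type} [Group P] (n : ℕ) {s t : ℕ} (hts : t ≤ s) (d z : P × P × P) :
    winAct n s d * winAct n t z * (winAct n s d)⁻¹ =
      winAct n t ((d.1, winTup s d (t + 1), winTup s d (t + 2)) * z *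
        (d.1, winTup s d (t + 1), winTup s d (t + 2))⁻¹) := by
  rw [mul_inv_eq_iff_eq_mul]
  ext w i
  simp only [Equiv.Perm.mul_apply, winAct_apply, ← mul_assoc]
  rw [winTup_conj hts]

theorem winTup_succ {P : Type} [Group P] (t : ℕ) (c : P) (z : P × P × P) (i : ℕ) :
    winTup (t + 1) ((c, c, c) * z * (c, c, c)⁻¹) i * c = c * winTup t z (i - 1) := by
  by_cases h0 : i ≤ t + 1
  · have h1 : i - 1 ≤ t := by omega
    simp [winTup, h0, h1]
  have h3 : ¬ (i - 1 ≤ t) := by omega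
  by_cases h1 : i = t + 1 + 1
  · subst h1
    simp [winTup]
  have h4 : ¬ (i - 1 = t + 1) := by omega
  by_cases h2 : i = t + 1 + 2
  · subst h2
    simp [winTup]
  · have h5 : ¬ (i - 1 = t + 2) := by omega
    simp [winTup, h0, h1, h2, h3, h4, h5]

theorem winXi_act {P : Type} [Group P] [Finite P] (L : ℕ) (c : P) (t : ℕ) (ht : t + 2 < L + 1)
    (z : P × P × P) :
    grpXi L c * winAct (L + 2) t z * (grpXi L c)⁻¹ =
      winAct (L + 2) (t + 1) ((c, c, c) * z * (c, c, c)⁻¹) := by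
  rw [mul_inv_eq_iff_eq_mul]
  ext w i
  rw [Equiv.Perm.mul_apply, Equiv.Perm.mul_apply, winAct_apply, grpXi_apply, grpXi_apply]
  unfold grpXiFun
  rw [← mul_assoc, winTup_succ, mul_assoc]
  simp only [winAct_apply]
  have hl : winTup t z (L + 1) = 1 := by
    rw [winTup, if_neg (by omega), if_neg (by omega), if_neg (by omega)]
  by_cases h0 : i.val = 0
  · simp [h0]
  by_cases h1 : i.val = 1
  · simp [h1, hl, mul_assoc]
  · simp [h0, h1]

theorem win_grp {P : Type} [Group P] (n t : ℕ) (u : P) :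
    grpAct n t u ∈ (winAct n t).range ∧ grpAct n (t + 1) u ∈ (winAct n t).range ∧
      grpAct n (t + 1 + 1) u ∈ (winAct n t).range := by
  refine ⟨⟨(u, 1, 1), ?_⟩, ⟨(u, u, 1), ?_⟩, ⟨(u, u, u), ?_⟩⟩ <;> ext w i <;>
    rw [winAct_apply, grpAct_apply, winTup] <;> split_ifs <;> first | rfl | omega

theorem exists_win {G P : Type} [Group G] [Group P] [Finite P] (x y : G)
    (hfree : ∀ (H : Type) [Group H] (a b : H), ∃ π : G →* H, π x = a ∧ π y = b)
    (hgen : Subgroup.closure {x, y} = ⊤) (ρ : G →* P) (M : ℕ) :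
    ∃ (H : Type) (_ : Group H) (_ : Finite H) (π : G →* H) (I J : ℕ → Subgroup H),
      π.ker ≤ ρ.ker ∧ (∀ t, Nat.card (I t) ≤ Nat.card P ^ 3) ∧
      (∀ s t, t ≤ s → s ≤ 3 * M → ∀ g ∈ I s, ∀ h, g * h * g⁻¹ ∈ I t ↔ h ∈ I t) ∧
      (∀ t, t < 3 * M → ∀ h, π x * h * (π x)⁻¹ ∈ I (t + 1) ↔ h ∈ I t) ∧
      (∀ u v, u < v → v ≤ M → I (3 * u) ≤ J v) ∧ (∀ v, v ≤ M → I (3 * v) ⊓ J v = ⊥) ∧
      ∀ j : Fin 3, π (x ^ (j : ℕ) * y * (x ^ (j : ℕ))⁻¹) ∈ I (3 * M) := by
  obtain ⟨π, hx, hy⟩ := hfree (Equiv.Perm (Fin (3 * M + 1 + 2) → P)) (grpXi (3 * M + 1) (ρ x))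
    (grpAct (3 * M + 1 + 2) (3 * M) (ρ y))
  have hzero : ∀ (g : G) (w : Fin (3 * M + 1 + 2) → P), π g w 0 = ρ g * w 0 := by
    intro g
    have hg : g ∈ Subgroup.closure {x, y} := hgen ▸ Subgroup.mem_top g
    induction hg using Subgroup.closure_induction with
    | mem a ha =>
      intro w
      rcases ha with rfl | rfl
      · rw [hx, grpXi_apply]
        simp [grpXiFun]
      · rw [hy, grpAct_apply]
        simp
    | one => intro w; simp
    | mul a b _ _ iha ihb =>
      intro w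
      rw [map_mul, map_mul, Equiv.Perm.mul_apply, iha, ihb, mul_assoc]
    | inv a _ ih =>
      intro w
      have h1 := ih ((π a)⁻¹ w)
      rw [map_inv, map_inv, eq_inv_mul_iff_mul_eq, ← h1]
      simp
  refine ⟨Equiv.Perm (Fin (3 * M + 1 + 2) → P), inferInstance, inferInstance, π,
    fun t => (winAct (3 * M + 1 + 2) t).range, fun v => grpFix P (3 * M + 1 + 2) (3 * v) ⊓
      (grpFix P (3 * M + 1 + 2) (3 * v + 1) ⊓ grpFix P (3 * M + 1 + 2) (3 * v + 2)),
    ?_, ?_, ?_, ?_, ?_, ?_, ?_⟩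
  · intro g hg
    rw [MonoidHom.mem_ker] at hg ⊢
    have h1 := hzero g 1
    rw [hg] at h1
    simpa using h1.symm
  · intro t
    refine (Nat.card_le_card_of_surjective _
      (winAct (P := P) (3 * M + 1 + 2) t).rangeRestrict_surjective).trans (le_of_eq ?_)
    rw [Nat.card_prod, Nat.card_prod]
    ring
  · rintro s t hts - g ⟨d, rfl⟩ h
    exact grp_conj_iff _ _ _ _ (winAct_act _ hts d) h
  · intro t ht h
    rw [hx]
    exact grp_conj_iff _ _ _ _ (winXi_act _ _ t (by omega)) h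
  · rintro u v huv - g ⟨z, rfl⟩
    refine ⟨fun w i hi => ?_, fun w i hi => ?_, fun w i hi => ?_⟩ <;>
      rw [winAct_apply, winTup, if_neg (by omega), if_neg (by omega), if_neg (by omega), one_mul]
  · intro v hv
    rw [eq_bot_iff]
    rintro g ⟨⟨z, rfl⟩, h1, h2, h3⟩
    have e1 := h1 1 ⟨3 * v, by omega⟩ rfl
    have e2 := h2 1 ⟨3 * v + 1, by omega⟩ rfl
    have e3 := h3 1 ⟨3 * v + 2, by omega⟩ rfl
    rw [winAct_apply] at e1 e2 e3
    have e : z = 1 := Prod.ext (by simpa [winTup] using e1)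
      (Prod.ext (by simpa [winTup] using e2) (by simpa [winTup] using e3))
    rw [e, map_one]
    exact Subgroup.one_mem _
  · have e1 : π (x * y * x⁻¹) = grpAct _ (3 * M + 1) (ρ x * ρ y * (ρ x)⁻¹) := by
      rw [map_mul, map_mul, map_inv, hx, hy, grpXi_act _ _ _ (by omega)]
    have e2 : π (x * (x * y * x⁻¹) * x⁻¹) =
        grpAct _ (3 * M + 1 + 1) (ρ x * (ρ x * ρ y * (ρ x)⁻¹) * (ρ x)⁻¹) := by
      rw [map_mul, map_mul, map_inv, hx, e1, grpXi_act _ _ _ (by omega)]
    intro j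
    fin_cases j
    · simpa [hy] using (win_grp _ (3 * M) (ρ y)).1
    · have e : x ^ 1 * y * (x ^ 1)⁻¹ = x * y * x⁻¹ := by group
      change π (x ^ 1 * y * (x ^ 1)⁻¹) ∈ _
      rw [e, e1]
      exact (win_grp _ _ _).2.1
    · have e : x ^ 2 * y * (x ^ 2)⁻¹ = x * (x * y * x⁻¹) * x⁻¹ := by
        simp only [pow_two, mul_inv_rev, mul_assoc]
      change π (x ^ 2 * y * (x ^ 2)⁻¹) ∈ _
      rw [e, e2]
      exact (win_grp _ _ _).2.2

end Pool.Agent.Lib.MP_570070_gt.Cf
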