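import Pool.Agent.Lib.MP_570070_gt.Cf.Mat
import Pool.Agent.Lib.MP_570070_gt.Cf.Win
import Pool.Agent.Lib.MP_75c153_gt.Cf.CfChain

/-! A chain that is cofinal among the subgroups of finite index. -/

namespace Pool.Agent.Lib.MP_570070_gt.Cf

open Matrix Filter Topology Pool.Agent.Lib.MP_75c153_gt Pool.Agent.Lib.MP_75c153_gt.Cf

variable {G : Type} [Group G]

/-- `K` is the kernel of a map to a finite group in whose regular representation the normalised
sum of the logarithms is at most `1 / 5`. -/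
def Small5 (a : MonoidAlgebra ℤ G) (K : Subgroup G) : Prop :=
  ∃ (H : Type) (_ : Group H) (_ : Fintype H) (_ : DecidableEq H) (π : G →* H), π.ker = K ∧
    ∀ hM : (rep ((reg H).comp π) a * (rep ((reg H).comp π) a)ᵀ).IsHermitian,
      ((eigs hM).map Real.log).sum ≤ 1 / 5 * (Fintype.card H : ℝ)

theorem exists_small5 {P : Type} [Group P] [Finite P] (x y : G)
    (hfree : ∀ (H : Type) [Group H] (a b : H), ∃ π : G →* H, π x = a ∧ π y = b)
    (hgen : Subgroup.closure {x, y} = ⊤) (ρ : G →* P) :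
    ∃ K, K ≤ ρ.ker ∧ Small5 (elt x fun j => x ^ (j : ℕ) * y * (x ^ (j : ℕ))⁻¹) K := by
  classical
  obtain ⟨ys, hys⟩ : ∃ ys : Fin 3 → G, ys = fun j : Fin 3 => x ^ (j : ℕ) * y * (x ^ (j : ℕ))⁻¹ :=
    ⟨_, rfl⟩
  rw [← hys]
  obtain ⟨B, hB, hBd⟩ := exists_bd (elt x ys - 1)
  have hk : (1 : ℝ) ≤ ((Nat.card P ^ 3 : ℕ) : ℝ) := by
    exact_mod_cast Nat.one_le_pow _ _ Nat.card_pos
  obtain ⟨L, hL⟩ := exists_len (θ := 1 - 1 / ((Nat.card P ^ 3 : ℕ) : ℝ))
    (C := 15 * (2 + 2 * (B + 8)))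
    (by rw [sub_nonneg, div_le_one (by linarith)]; exact hk)
    (by have : 0 < 1 / ((Nat.card P ^ 3 : ℕ) : ℝ) := by positivity
        linarith) (by linarith)
  obtain ⟨H, _, _, π, I, J, h1, h2, h3, h4, h5, h6, h7⟩ := exists_win x y hfree hgen ρ (L + 1)
  have h7' : ∀ j, π (ys j) ∈ I (3 * (L + 1)) := fun j => by rw [hys]; exact h7 j
  let iF := Fintype.ofFinite H
  refine ⟨π.ker, h1, H, inferInstance, iF, inferInstance, π, rfl, ?_⟩
  set r := (reg H).comp π with hr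
  have hr' : ∀ g, r g⁻¹ = (r g)ᵀ := fun g => by
    rw [hr, MonoidHom.comp_apply, map_inv, reg_inv]
    rfl
  set b : Matrix H H ℝ := ∑ j, (1 - r (ys j)) with hb
  have hA : rep r (elt x ys) = 1 + reg H (π x) * ((18 : ℝ) • b) := by
    rw [mul_smul_comm]
    simp only [elt, map_add, map_one, map_mul, map_sum, map_sub, rep_single, one_smul, hb,
      map_ofNat]
    rw [← Nat.cast_ofNat (n := 18), ← nsmul_eq_mul, ← Nat.cast_smul_eq_nsmul ℝ]
    rfl
  obtain ⟨Q, q1, q2, q3, q4, q5⟩ := exists_proj3 (L + 1) (Nat.card P ^ 3) I J (π x)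
    ((18 : ℝ) • b) h2 h3 h4 h5 h6 (fun t ht => by
      rw [smul_mul_assoc, mul_smul_comm]
      congr 1
      simp only [hb, Finset.sum_mul, Finset.mul_sum, sub_mul, mul_sub, one_mul, mul_one]
      exact Finset.sum_congr rfl fun j _ =>
        congrArg _ (conj_sumOf (h3 _ t ht le_rfl _ (h7' j)))) (by
      rw [smul_mul_assoc, hb, Finset.sum_mul]
      refine smul_eq_zero_of_right _ (Finset.sum_eq_zero fun j _ => ?_)
      rw [sub_mul, one_mul]
      exact sub_eq_zero.2 (mul_sumOf (h7' j)).symm)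
  have hd := hBd H r hr'
  rw [map_sub, map_one, hA, add_sub_cancel_left] at hd
  have hd' : Bd (reg H (π x) * ((18 : ℝ) • b)) (B + 8) := fun Y => by
    have := cfm_nonneg Y
    have := hd Y
    linarith
  rw [hA]
  intro hM
  refine (tri_sum_log_le10 q1 q2 q3 q4 (by linarith) hd' hM).trans ?_
  have hH : (0 : ℝ) ≤ Fintype.card H := Nat.cast_nonneg _
  have h8 := mul_le_mul_of_nonneg_right q5
    (show (0 : ℝ) ≤ (((L + 1 : ℕ) : ℝ) + 3) * (15 * (2 + 2 * (B + 8))) by positivity)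
  have h9 := mul_le_mul_of_nonneg_left hL hH
  rw [mul_assoc] at h8
  have hq : 0 ≤ Q.trace := by
    have := cfm_nonneg Q
    rwa [q1, q2] at this
  have h10 : 0 ≤ Q.trace * (2 + 2 * (B + 8)) := by positivity
  push_cast at h8 h9 ⊢
  nlinarith

theorem exists_chain5 [Countable G] [Group.ResiduallyFinite G] [Group.FG G]
    (a : MonoidAlgebra ℤ G)
    (hs : ∀ (P : Type) [Group P] [Finite P] (ρ : G →* P), ∃ K, K ≤ ρ.ker ∧ Small5 a K) :
    ∃ K : ℕ → Subgroup G, Antitone K ∧ ⨅ i, K i = ⊥ ∧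
      (∀ N : Subgroup G, N.FiniteIndex → ∃ i, K i ≤ N) ∧ ∀ i, Small5 a (K i) := by
  classical
  obtain ⟨e, he⟩ := exists_surjective_nat (Finset G)
  have key : ∀ (K : {K : Subgroup G // K.Normal ∧ K.FiniteIndex}) (s : Finset G),
      ∃ K' : Subgroup G, (K'.Normal ∧ K'.FiniteIndex) ∧ K' ≤ K.1 ∧
      ((Subgroup.closure (s : Set G)).FiniteIndex → K' ≤ Subgroup.closure (s : Set G)) ∧
      Small5 a K' := by
    rintro ⟨K, hK, hF⟩ s
    obtain ⟨N, n1, n2, n3⟩ : ∃ N : Subgroup G, N.Normal ∧ N.FiniteIndex ∧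
        ((Subgroup.closure (s : Set G)).FiniteIndex → N ≤ Subgroup.closure (s : Set G)) := by
      by_cases h : (Subgroup.closure (s : Set G)).FiniteIndex
      · exact ⟨_, inferInstance, Subgroup.finiteIndex_normalCore _,
          fun _ => Subgroup.normalCore_le _⟩
      · exact ⟨⊤, inferInstance, inferInstance, fun h' => absurd h' h⟩
    have : Finite (G ⧸ (K ⊓ N)) := Subgroup.finite_quotient_of_finiteIndex
    obtain ⟨K', k1, k2⟩ := hs _ (QuotientGroup.mk' (K ⊓ N))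
    rw [QuotientGroup.ker_mk'] at k1
    refine ⟨K', ?_, k1.trans inf_le_left, fun h => k1.trans (inf_le_right.trans (n3 h)), k2⟩
    obtain ⟨H, _, _, _, π, rfl, -⟩ := k2
    exact ⟨inferInstance, inferInstance⟩
  choose nx h1 h2 h3 h4 using key
  let f : ℕ → {K : Subgroup G // K.Normal ∧ K.FiniteIndex} :=
    fun n => n.rec ⟨⊤, inferInstance, inferInstance⟩ fun n S => ⟨nx S (e n), h1 _ _⟩
  have cof : ∀ N : Subgroup G, N.FiniteIndex → ∃ i, (f (i + 1)).1 ≤ N := by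
    intro N hN
    obtain ⟨s, rfl⟩ := (Group.fg_iff_subgroup_fg N).1 (Subgroup.fg_of_index_ne_zero N)
    obtain ⟨n, rfl⟩ := he s
    exact ⟨n, h3 (f n) (e n) hN⟩
  refine ⟨fun n => (f (n + 1)).1, antitone_nat_of_succ_le fun n => h2 (f (n + 1)) (e (n + 1)), ?_,
    cof, fun n => h4 (f n) (e n)⟩
  rw [eq_bot_iff]
  intro g hg
  refine Group.eq_one_iff_forall_finiteIndexNormalSubroup g fun M => ?_
  obtain ⟨i, hi⟩ := cof M.toSubgroup inferInstance
  exact hi (Subgroup.mem_iInf.1 hg i)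

end Pool.Agent.Lib.MP_570070_gt.Cf
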