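import Pool.Agent.Lib.MP_570070_gt.Cf.Spec
import Pool.Agent.Lib.MP_570070_gt.Dc3.Tor

/-! The gap of the torsions along the cofinal chain. -/

open MeasureTheory Filter Topology Set
open scoped ContDiff InnerProductSpace

namespace Pool.Agent.Lib.MP_570070_gt.An

theorem up_main_cof : ∃ (c : Par) (G : Type) (_ : Group G) (_ : Countable G) (g : Ed c → G)
    (K : ℕ → Subgroup G) (_ : ∀ i, (K i).Normal), Antitone K ∧ ⨅ i, K i = ⊥ ∧
    (∀ i, (K i).FiniteIndex) ∧ (∀ N : Subgroup G, N.FiniteIndex → ∃ i, K i ≤ N) ∧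
    Nonempty (G ≃* FreeGroup (Fin 2)) ∧ g none = 1 ∧
    Subgroup.closure (range g) = ⊤ ∧ ∀ (ρ : ℝ) (r : ℕ → ℝ),
      UpTorsion (grpGl c g) (base G) ρ →
      (∀ i, UpTorsion (grpGl c fun e => (g e : G ⧸ K i)) (base (G ⧸ K i)) (r i)) →
      ∀ᶠ i in atTop, ρ + 1 / 8 ≤ r i := by
  obtain ⟨c, G, _, _, g, K, _, _, x, ha, hi, hfi, hcof, hfr, h1, hg, hcard, hW, hlog⟩ :=
    exists_spec_cof
  refine ⟨c, G, inferInstance, inferInstance, g, K, inferInstance, ha, hi, hfi, hcof, hfr, h1, hg,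
    fun ρ r hρ hr => ?_⟩
  obtain ⟨U, Pt, I₀, I₁, hP, f0, f1, r0, r1, e⟩ := hρ.reduce
  choose U' Pt' J₀ J₁ hP' g0 g1 s0 s1 e' using fun i => (hr i).reduce
  have l0 := local_grp c g K ha hi (k := 0) (by norm_num) U (hP 0) f0 r0 U' (fun i => hP' i 0) g0
  have l1 := local_grp c g K ha hi (k := 1) le_rfl U (hP 1) f1 r1 U' (fun i => hP' i 1) g1
  obtain ⟨C, hC⟩ := tail_zero_grp c ((trOn (U.on 0 (base G)) (Pt 0 2)).toReal + 2)
  obtain ⟨κ, hκ, hT⟩ := tail_one_grp' c
  have gen : ∀ i, Subgroup.closure (range fun e => (g e : G ⧸ K i)) = ⊤ := fun i => by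
    have := congrArg (Subgroup.map (QuotientGroup.mk' (K i))) hg
    rwa [MonoidHom.map_closure, ← range_comp,
      Subgroup.map_top_of_surjective _ (QuotientGroup.mk'_surjective _)] at this
  have t0 := (l0 2 1 one_pos).mono fun i h => hC (fun e => (g e : G ⧸ K i))
    (by simp [h1]) (gen i) (U' i) (hP' i 0) (g0 i) (by
      have := (abs_le.1 (h 2 ⟨two_pos, le_rfl⟩)).2
      linarith)
  have key := final_gap r0 r1 s0 s1 (heat_tr_antitone (isHeat₂_of_isHeat (hP 0)) _ f0)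
    (heat_tr_antitone (isHeat₂_of_isHeat (hP 1)) _ f1)
    (fun i => heat_tr_antitone (isHeat₂_of_isHeat (hP' i 0)) _ (g0 i))
    (fun i => heat_tr_antitone (isHeat₂_of_isHeat (hP' i 1)) _ (g1 i))
    (fun i t => ENNReal.toReal_nonneg) l0 l1 (C := C) (γ := 1 / 4) (by norm_num)
    (t0.mono fun i h => h.2)
    (fun t ht => by
      filter_upwards [t0, hcard t] with i h h'
      exact h.1 t ht h')
    (c := 1 / 2) (by norm_num) (fun T hT1 => by
      filter_upwards [hlog (max 1 (2 * T / κ)) (le_max_left _ _)] with i h b hb hint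
      have hd : (0 : ℝ) < Fintype.card (G ⧸ K i) := by exact_mod_cast Fintype.card_pos
      refine le_trans ?_ (tail_integral (x i) hκ (d := 2 * Fintype.card (G ⧸ K i))
        (by positivity) hT1 hint fun t ht => ?_)
      · rw [le_div_iff₀ (by positivity)]
        linarith
      · obtain ⟨W, w1, w2⟩ := hW i (κ / (2 * t))
        rw [← w1]
        exact hT _ (U' i) (hP' i 1) (g1 i) t ht W w2 b hb)
  filter_upwards [key] with i h
  linarith [e' i]

end Pool.Agent.Lib.MP_570070_gt.An
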