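import Pool.Agent.Lib.MP_75c153_gt.Cf.CfMat
import Pool.Agent.Lib.MP_75c153_gt.Cf.CfProj

/-! The triangular determinant bound with a smaller constant, and projections for windows. -/

namespace Pool.Agent.Lib.MP_570070_gt.Cf

open Matrix Pool.Agent.Lib.MP_75c153_gt Pool.Agent.Lib.MP_75c153_gt.Cf

theorem exists_proj3 {H : Type} [Group H] [Fintype H] [DecidableEq H] (M k : ℕ)
    (I J : ℕ → Subgroup H) (x : H) (b : Matrix H H ℝ) (hk : ∀ t, Nat.card (I t) ≤ k)
    (hnorm : ∀ s t, t ≤ s → s ≤ 3 * M → ∀ g ∈ I s, ∀ h, g * h * g⁻¹ ∈ I t ↔ h ∈ I t)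
    (hshift : ∀ t, t < 3 * M → ∀ h, x * h * x⁻¹ ∈ I (t + 1) ↔ h ∈ I t)
    (hIJ : ∀ u v, u < v → v ≤ M → I (3 * u) ≤ J v) (hdis : ∀ v, v ≤ M → I (3 * v) ⊓ J v = ⊥)
    (hb : ∀ t, t ≤ 3 * M → b * sumOf (I t) = sumOf (I t) * b) (hb0 : b * sumOf (I (3 * M)) = 0) :
    ∃ Q : Matrix H H ℝ, Qᵀ = Q ∧ Q * Q = Q ∧ Q * (reg H x * b) * (1 - Q) = 0 ∧
      (reg H x * b) ^ (3 * M + 1) * (1 - Q) = 0 ∧
      Q.trace ≤ (Fintype.card H : ℝ) * (1 - 1 / (k : ℝ)) ^ (M + 1) := by
  have hc : ∀ s t, s ≤ 3 * M → t ≤ 3 * M → Commute (sumOf (I s)) (sumOf (I t)) :=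
    fun s t hs ht => by
      rcases le_total t s with h | h
      · exact pj_comm (hnorm s t h hs)
      · exact (pj_comm (hnorm t s h ht)).symm
  have hc' : ∀ s t, s ≤ M → t ≤ M →
      Commute (sumOf ((fun v => I (3 * v)) s)) (sumOf ((fun v => I (3 * v)) t)) :=
    fun s t hs ht => hc _ _ (by omega) (by omega)
  have hN : ∀ t, t < 3 * M → reg H x * b * sumOf (I t) = sumOf (I (t + 1)) * (reg H x * b) :=
    fun t ht => by
      rw [mul_assoc, hb t ht.le, ← mul_assoc, conj_sumOf (hshift t ht), mul_assoc]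
  have hN0 : reg H x * b * sumOf (I (3 * M)) = 0 := by rw [mul_assoc, hb0, mul_zero]
  have hp : ∀ j t, t + j = 3 * M → (reg H x * b) ^ (j + 1) * sumOf (I t) = 0 := by
    intro j
    induction j with
    | zero =>
      intro t ht
      rw [show t = 3 * M from ht]
      simpa using hN0
    | succ j ih =>
      intro t ht
      rw [pow_succ, mul_assoc, hN t (by omega), ← mul_assoc, ih (t + 1) (by omega), zero_mul]
  refine ⟨pjQ I (3 * M + 1), pj_symm hc _ le_rfl, pj_idemQ hc _ le_rfl,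
    pj_ann hc (fun t ht => ?_) _ le_rfl, pj_ann hc (fun t ht => ?_) _ le_rfl, ?_⟩
  · rcases ht.eq_or_lt with rfl | h
    · rw [mul_assoc, hN0, mul_zero]
    · rw [mul_assoc, hN t h, ← mul_assoc, pj_killQ hc _ (by omega) le_rfl, zero_mul]
  · rw [show 3 * M + 1 = t + (3 * M - t + 1) by omega, pow_add, mul_assoc, hp _ t (by omega),
      mul_zero]
  · refine le_trans ?_ (pj_trle (I := fun v => I (3 * v)) (L := M) (fun t => hk _) hIJ hdis _
      le_rfl).2
    have h1 := pj_ann hc' (M := pjQ I (3 * M + 1))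
      (fun t ht => pj_killQ hc _ (by omega) le_rfl) _ le_rfl
    have h2 := pj_symm hc _ le_rfl
    have h3 := pj_idemQ hc _ le_rfl
    have h4 := pj_symm hc' _ le_rfl
    have h5 := pj_idemQ hc' _ le_rfl
    generalize pjQ I (3 * M + 1) = Q at *
    generalize pjQ (fun v => I (3 * v)) (M + 1) = Q' at *
    have h6 : Q * Q' = Q := by
      rw [mul_sub, mul_one, sub_eq_zero] at h1
      exact h1.symm
    have h7 : Q' * Q = Q := by
      have := congrArg transpose h6
      rwa [transpose_mul, h2, h4] at this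
    have h8 := cfm_nonneg (Q' - Q)
    rw [transpose_sub, h2, h4, sub_mul, mul_sub, mul_sub, h3, h5, h6, h7, sub_self, sub_zero,
      trace_sub] at h8
    linarith

variable {n : Type} [Fintype n] [DecidableEq n]

theorem tri_sum_log_le10 {N Q : Matrix n n ℝ} {B : ℝ} {L : ℕ} (hQ : Qᵀ = Q) (hQQ : Q * Q = Q)
    (hinv : Q * N * (1 - Q) = 0) (hnil : N ^ (L + 1) * (1 - Q) = 0) (hB9 : 9 ≤ B) (hN : Bd N B)
    (hM : ((1 + N) * (1 + N)ᵀ).IsHermitian) :
    ((eigs hM).map Real.log).sum ≤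
      (Fintype.card n : ℝ) / 10 + Q.trace * (((L : ℝ) + 3) * (2 + 2 * B)) := by
  have hB : 1 ≤ B := by linarith
  obtain ⟨R, hR⟩ : ∃ R, R = 1 - Q := ⟨_, rfl⟩
  have hRt : Rᵀ = R := by rw [hR, transpose_sub, transpose_one, hQ]
  have hRQ : R * Q = 0 := by rw [hR, sub_mul, one_mul, hQQ, sub_self]
  have hQR : Q * R = 0 := by rw [hR, mul_sub, mul_one, hQQ, sub_self]
  have hRR : R * R = R := by
    conv_lhs => rw [hR, sub_mul, one_mul, ← hR, hQR, sub_zero]
  have htr : R.trace = Fintype.card n - Q.trace := by rw [hR, trace_sub, trace_one]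
  rw [← hR] at hinv hnil
  have hRN : R * N * R = N * R := by
    have e : R * N * R = N * R - Q * N * R := by
      nth_rewrite 1 [hR]
      noncomm_ring
    rw [e, hinv, sub_zero]
  obtain ⟨G, g1, g2, g3⟩ := cfm_inv hRN hRR hB hN L
  have hAG : (1 + N) * (G * R) = R := by
    rw [← mul_assoc, g2, sub_mul, one_mul, neg_pow, mul_assoc, hnil, mul_zero, sub_zero]
  have hpow : ∀ i : ℕ, (N * R) ^ (i + 1) = N ^ (i + 1) * R := by
    intro i
    induction i with
    | zero => simp
    | succ i ih => rw [pow_succ, ih, mul_assoc, ← mul_assoc R, hRN, ← mul_assoc, ← pow_succ]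
  have hT : (G * R + Q).det = 1 := by
    have e : (1 + N * R) * (G * R + Q) =
        G * R + Q + N * (R * (G * R)) + N * (R * Q) := by noncomm_ring
    have e2 : G * R + Q + N * (G * R) = (1 + N) * (G * R) + Q := by noncomm_ring
    rw [g3, hRQ, mul_zero, add_zero, e2, hAG, show R + Q = 1 by rw [hR, sub_add_cancel]] at e
    have h := congrArg det e
    rwa [det_mul, det_one_add_nil ⟨L + 1, by rw [hpow, hnil]⟩, one_mul, det_one] at h
  obtain ⟨C, hC⟩ : ∃ C, C = 2 + 2 * B := ⟨_, rfl⟩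
  rw [← hC] at g1 ⊢
  have hC4 : 20 ≤ C := by linarith
  have hD : 1 ≤ C ^ L := one_le_pow₀ (by linarith)
  have hq : 0 ≤ Q.trace := by
    have := cfm_nonneg Q
    rwa [hQ, hQQ] at this
  have hr : 0 ≤ R.trace := by
    have := cfm_nonneg R
    rwa [hRt, hRR] at this
  have f1 : ((G * R + Q)ᵀ * (G * R + Q)).trace ≤ 2 * C ^ L * Fintype.card n := by
    have a := cfm_add (G * R) Q
    have b := g1 R
    have c := mul_le_mul_of_nonneg_right hD hq
    rw [hRt, hRR, htr] at b
    rw [hQ, hQQ] at a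
    linarith
  have f2 : (((1 + N) * (G * R + Q))ᵀ * ((1 + N) * (G * R + Q))).trace ≤
      Fintype.card n + C * Q.trace := by
    have a := cfm_add Q (N * Q)
    have b := hN Q
    have c : (Rᵀ * (Q + N * Q)).trace = 0 := by
      rw [trace_mul_comm, hRt, add_mul, mul_assoc, hQR, mul_zero, add_zero, trace_zero]
    have d : ((Q + N * Q)ᵀ * R).trace = 0 := by
      rw [← trace_transpose, transpose_mul, transpose_transpose, c]
    rw [mul_add, hAG, add_mul 1 N Q, one_mul, transpose_add R, add_mul, mul_add Rᵀ,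
      mul_add _ R, trace_add, trace_add, trace_add, c, d, hRt, hRR, htr, hC]
    rw [show Qᵀ * Q = Q by rw [hQ, hQQ]] at a b
    linarith
  obtain ⟨s, hs⟩ : ∃ s, s = (C ^ (L + 1))⁻¹ := ⟨_, rfl⟩
  have hs0 : 0 < s := by rw [hs]; positivity
  have hp : ((1 + N) * (1 + N)ᵀ).PosSemidef := posSemidef_self_mul_conjTranspose _
  have hx : ∀ j, 0 ≤ hM.eigenvalues j := fun j => hp.eigenvalues_nonneg j
  have hxs : ∀ j, 0 < hM.eigenvalues j + s := fun j => add_pos_of_nonneg_of_pos (hx j) hs0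
  have e : ((1 + N) * (G * R + Q))ᵀ * ((1 + N) * (G * R + Q)) + s • ((G * R + Q)ᵀ * (G * R + Q)) =
      (G * R + Q)ᵀ * ((1 + N)ᵀ * (1 + N) + s • (1 : Matrix n n ℝ)) * (G * R + Q) := by
    rw [transpose_mul, mul_add _ _ (s • _), add_mul _ (_ * s • _), Matrix.mul_smul, mul_one,
      Matrix.smul_mul]
    simp only [mul_assoc]
  have hK : (((1 + N) * (G * R + Q))ᵀ * ((1 + N) * (G * R + Q)) +
      s • ((G * R + Q)ᵀ * (G * R + Q))).PosSemidef :=
    (posSemidef_conjTranspose_mul_self _).add ((posSemidef_conjTranspose_mul_self _).smul hs0.le)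
  have hd : (((1 + N) * (G * R + Q))ᵀ * ((1 + N) * (G * R + Q)) +
      s • ((G * R + Q)ᵀ * (G * R + Q))).det = ∏ j, (hM.eigenvalues j + s) := by
    rw [e, det_mul, det_mul, det_transpose, hT, one_mul, mul_one, cfm_det hM]
  have h1 := cfm_logdet hK (by rw [hd]; exact Finset.prod_pos fun j _ => hxs j)
  rw [hd, Real.log_prod fun j _ => (hxs j).ne', trace_add, trace_smul, smul_eq_mul] at h1
  have h2 : s * (2 * C ^ L * Fintype.card n) ≤ (Fintype.card n : ℝ) / 10 := by
    have a : s * (C ^ L * C) = 1 := by rw [hs, ← pow_succ, inv_mul_cancel₀ (by positivity)]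
    have b : 0 ≤ s * C ^ L * Fintype.card n := by positivity
    have c := mul_le_mul_of_nonneg_left hC4 b
    have d := congrArg (· * (Fintype.card n : ℝ)) a
    beta_reduce at d
    linarith
  have h3 := mul_le_mul_of_nonneg_left f1 hs0.le
  have h4 : -Real.log s ≤ (L + 1) * C := by
    rw [hs, Real.log_inv, neg_neg, Real.log_pow]
    push_cast
    exact mul_le_mul_of_nonneg_left (Real.log_le_self (by linarith)) (by positivity)
  have h5 : ∑ j, (if hM.eigenvalues j = 0 then (1 : ℝ) else 0) ≤ Q.trace := by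
    have a := hM.rank_eq_card_non_zero_eigs
    have b : R.rank ≤ (1 + N).rank := by
      conv_lhs => rw [← hAG]
      exact rank_mul_le_left _ _
    rw [rank_self_mul_transpose, Fintype.card_subtype] at a
    have c := Finset.card_filter_add_card_filter_not (s := Finset.univ)
      fun j => hM.eigenvalues j = 0
    rw [Finset.card_univ] at c
    have d : (Finset.univ.filter fun j => hM.eigenvalues j = 0).card + R.rank ≤
        Fintype.card n := by
      rw [← c]
      exact Nat.add_le_add_left (b.trans a.le) _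
    have d' := (Nat.cast_le (α := ℝ)).2 d
    rw [Nat.cast_add, ← cfm_rank hRR, htr] at d'
    rw [Finset.sum_boole]
    linarith
  have h6 : ∀ j ∈ Finset.univ, Real.log (hM.eigenvalues j) ≤ Real.log (hM.eigenvalues j + s) +
      (L + 1) * C * (if hM.eigenvalues j = 0 then (1 : ℝ) else 0) := by
    intro j _
    split_ifs with h
    · rw [h, Real.log_zero, zero_add]
      linarith
    · rw [mul_zero, add_zero]
      exact Real.log_le_log ((hx j).lt_of_ne' h) (by linarith)
  have h7 := Finset.sum_le_sum h6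
  rw [Finset.sum_add_distrib, ← Finset.mul_sum] at h7
  have h8 := mul_le_mul_of_nonneg_left h5 (show 0 ≤ ((L : ℝ) + 1) * C by positivity)
  have h9 : 0 ≤ C * Q.trace := by positivity
  rw [eigs_sum]
  linarith

end Pool.Agent.Lib.MP_570070_gt.Cf
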