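import Pool.Agent.Lib.MP_570070_gt.Cf.Chain
import Pool.Agent.Lib.MP_570070_gt.An.SpecC

/-! The spectrum along the cofinal chain. -/

open Filter Topology Set Matrix Pool.Agent.Lib.MP_75c153_gt

namespace Pool.Agent.Lib.MP_570070_gt.An

open MeasureTheory in
theorem specb_main5 {G : Type} [Group G] {x : G} {ys : Fin 3 → G} (H : ℕ → Type)
    [∀ n, Group (H n)] [∀ n, Fintype (H n)] [∀ n, DecidableEq (H n)] (π : ∀ n, G →* H n)
    (hanti : Antitone fun n => (π n).ker) (hinf : ⨅ n, (π n).ker = ⊥)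
    (h : ∀ z, 4 * ip z z ≤ ip (toR (bar (elt x ys)) * z) (toR (bar (elt x ys)) * z))
    (h0 : ∀ n, ∀ hM : (rep ((reg (H n)).comp (π n)) (elt x ys) *
        (rep ((reg (H n)).comp (π n)) (elt x ys))ᵀ).IsHermitian,
      ((eigs hM).map Real.log).sum ≤ 1 / 5 * (Fintype.card (H n) : ℝ)) (T : ℝ) (hT : 1 ≤ T) :
    ∀ᶠ i in atTop, ∀ [Fintype (G ⧸ (π i).ker)] [DecidableEq (G ⧸ (π i).ker)]
      (hM : (rep ((reg (G ⧸ (π i).ker)).comp (QuotientGroup.mk' (π i).ker)) (elt x ys) *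
        (rep ((reg (G ⧸ (π i).ker)).comp (QuotientGroup.mk' (π i).ker))
          (elt x ys))ᵀ).IsHermitian),
      (Fintype.card (G ⧸ (π i).ker) : ℝ) ≤
        ∑ j, if 0 < hM.eigenvalues j then max 0 (-Real.log (T * hM.eigenvalues j)) else 0 := by
  choose hM h1 _ h3 using fun n => exists_eigs (π n) (elt x ys)
  have hF : MP_75c153_gt.Fam (fun k => (((elt x ys * bar (elt x ys)) ^ k).coeff 1 : ℝ))
      (l1 (elt x ys * bar (elt x ys))) (fun n => 1 / (Fintype.card (H n) : ℝ))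
      (fun n => eigs (hM n)) :=
    ⟨fun n => by positivity, h1, fun k => by
      filter_upwards [eventually_coeff_eq (fun n => (π n).ker) hanti hinf
        ((elt x ys * bar (elt x ys)) ^ k)] with n hn
      rw [h3, hn]⟩
  obtain ⟨μ, hfin, hsupp, hm⟩ := hF.exists_measure
  have hprob : IsProbabilityMeasure μ :=
    isProb_of_moment (by rw [hm]; simp [MonoidAlgebra.one_def])
  have hR : μ (Set.Icc (-|l1 (elt x ys * bar (elt x ys))|) |l1 (elt x ys * bar (elt x ys))|)ᶜ = 0 :=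
    measure_mono_null (Set.compl_subset_compl.2 (Set.Icc_subset_Icc (by simp) le_rfl)) hsupp
  have h4 : ∀ᵐ s ∂μ, 4 ≤ s := by
    filter_upwards [measure_eq_zero_iff_ae_notMem.1 (null_Iio h hR hm)] with s hs
    exact not_lt.1 hs
  have hT0 : 0 < T⁻¹ := inv_pos.2 (by linarith)
  have hf : Continuous fun s : ℝ => Real.log (max s T⁻¹) :=
    Continuous.log (by fun_prop) fun s => (lt_of_lt_of_le hT0 (le_max_right s _)).ne'
  have h5 := integral_mono_ae (integrable_const (Real.log 4)) (integrable_of_cpt hR hf) (by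
    filter_upwards [h4] with s hs
    exact Real.log_le_log (by norm_num) (hs.trans (le_max_left _ _)))
  simp only [integral_const, probReal_univ, smul_eq_mul, one_mul] at h5
  have h6 : Real.log 4 = 2 * Real.log 2 := by
    rw [show (4 : ℝ) = 2 ^ 2 by norm_num, Real.log_pow]
    norm_num
  have h7 : (6 / 5 : ℝ) < ∫ s, Real.log (max s T⁻¹) ∂μ := by linarith [Real.log_two_gt_d9]
  filter_upwards [(hF.tendsto μ hR hm _ hf).eventually (lt_mem_nhds h7)] with n hn _ _ hM'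
  have hH : (0 : ℝ) < Fintype.card (H n) := by exact_mod_cast Fintype.card_pos
  have h9 := h0 n (hM n)
  have h10 := Multiset.sum_map_le_sum_map (s := eigs (hM n)) _ _ fun s hs => specb_pt hT (h1 n s hs).1
  rw [Multiset.sum_map_add] at h10
  rw [one_div, ← div_eq_inv_mul, lt_div_iff₀ hH] at hn
  have h11 := specb_transfer (π n) (QuotientGroup.mk' (π n).ker) (QuotientGroup.ker_mk' _) _
    (hM n) hM' (fun s => if 0 < s then max 0 (-Real.log (T * s)) else 0) (by simp)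
  rw [eigs_sum hM'] at h11
  refine le_of_mul_le_mul_left ?_ hH
  rw [h11, mul_comm]
  exact mul_le_mul_of_nonneg_left (by linarith) (Nat.cast_nonneg _)

theorem exists_small_eigs_cof : ∃ (G : Type) (_ : Group G) (_ : Countable G) (x y : G)
    (K : ℕ → Subgroup G) (_ : ∀ i, (K i).Normal), Antitone K ∧ ⨅ i, K i = ⊥ ∧
    (∀ i, (K i).FiniteIndex) ∧ (∀ N : Subgroup G, N.FiniteIndex → ∃ i, K i ≤ N) ∧
    Nonempty (G ≃* FreeGroup (Fin 2)) ∧ Infinite G ∧
    Subgroup.closure {x, y} = ⊤ ∧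
    ∀ T : ℝ, 1 ≤ T → ∀ᶠ i in atTop, ∀ [Fintype (G ⧸ K i)] [DecidableEq (G ⧸ K i)]
      (hM : (rep ((reg (G ⧸ K i)).comp (QuotientGroup.mk' (K i)))
          (elt x fun j => x ^ (j : ℕ) * y * (x ^ (j : ℕ))⁻¹) *
        (rep ((reg (G ⧸ K i)).comp (QuotientGroup.mk' (K i)))
          (elt x fun j => x ^ (j : ℕ) * y * (x ^ (j : ℕ))⁻¹))ᵀ).IsHermitian),
      (Fintype.card (G ⧸ K i) : ℝ) ≤
        ∑ j, if 0 < hM.eigenvalues j then max 0 (-Real.log (T * hM.eigenvalues j)) else 0 := by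
  let φ : (⊥ : Subgroup (Multiplicative ℤ)) ≃* (⊥ : Subgroup (Multiplicative ℤ)) := MulEquiv.refl _
  have := int_residuallyFinite
  have := free_residuallyFinite φ
  have := hnn_countable φ
  have hy : Multiplicative.ofAdd (1 : ℤ) ∉ (⊥ : Subgroup (Multiplicative ℤ)) := by
    rw [Subgroup.mem_bot]
    decide
  obtain ⟨Y, hY, hd⟩ := exists_pong φ hy hy
  have hgen : Subgroup.closure {(HNNExtension.t : HNNExtension (Multiplicative ℤ) ⊥ ⊥ φ),
      HNNExtension.of (Multiplicative.ofAdd 1)} = ⊤ := by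
    refine eq_top_iff.2 fun g _ => ?_
    induction g using HNNExtension.induction_on with
    | of b =>
      have hb : b = Multiplicative.ofAdd (1 : ℤ) ^ b.toAdd := by
        rw [← ofAdd_zsmul]
        simp
      rw [hb, map_zpow]
      exact zpow_mem (Subgroup.subset_closure (by simp)) _
    | t => exact Subgroup.subset_closure (by simp)
    | mul a b ha hb => exact mul_mem (ha trivial) (hb trivial)
    | inv a ha => exact inv_mem (ha trivial)
  have : Group.FG (HNNExtension (Multiplicative ℤ) ⊥ ⊥ φ) :=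
    Group.fg_iff.2 ⟨_, hgen, Set.toFinite _⟩
  obtain ⟨K, h2, h3, hcof, h0⟩ := Cf.exists_chain5 _ fun P _ _ ρ =>
    Cf.exists_small5 HNNExtension.t (HNNExtension.of (Multiplicative.ofAdd 1)) (fun H _ a b =>
      ⟨HNNExtension.lift (zpowersHom _ b) a fun z => by
        rw [Subsingleton.elim z 1, map_one]
        simp, by simp, by simp⟩) hgen ρ
  choose H iG iF iD π hk hs using h0
  obtain rfl : K = fun n => (π n).ker := funext fun n => (hk n).symm
  exact ⟨HNNExtension (Multiplicative ℤ) ⊥ ⊥ φ, inferInstance, inferInstance, HNNExtension.t,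
    HNNExtension.of (.ofAdd 1), fun n => (π n).ker, inferInstance, h2, h3,
    fun n => inferInstance, hcof, specb_free φ,
    Infinite.of_injective _ (HNNExtension.of_injective φ), hgen,
    specb_main5 H π h2 h3 (gap Y hY hd) hs⟩

theorem exists_spec_cof : ∃ (c : Par) (G : Type) (_ : Group G) (_ : Countable G) (g : Ed c → G)
    (K : ℕ → Subgroup G) (_ : ∀ i, (K i).Normal) (_ : ∀ i, Fintype (G ⧸ K i))
    (x : ∀ i, G ⧸ K i → ℝ), Antitone K ∧ ⨅ i, K i = ⊥ ∧ (∀ i, (K i).FiniteIndex) ∧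
    (∀ N : Subgroup G, N.FiniteIndex → ∃ i, K i ≤ N) ∧
    Nonempty (G ≃* FreeGroup (Fin 2)) ∧ g none = 1 ∧ Subgroup.closure (range g) = ⊤ ∧
    (∀ d : ℝ, ∀ᶠ i in atTop, d ≤ Fintype.card (G ⧸ K i)) ∧
    (∀ i (s : ℝ), ∃ W : Submodule ℝ ((G ⧸ K i) × Bool → ℝ),
      Module.finrank ℝ W = (Finset.univ.filter fun j => 0 < x i j ∧ x i j ≤ s).card ∧
      ∀ v ∈ W, ∑ p, ahat (grpGl c fun e => (g e : G ⧸ K i)) v p ^ 2 ≤ s * ∑ p, v p ^ 2 ∧
        ∃ u, ahat (grpGl c fun e => (g e : G ⧸ K i)) u = v) ∧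
    ∀ T : ℝ, 1 ≤ T → ∀ᶠ i in atTop, (Fintype.card (G ⧸ K i) : ℝ) ≤
      ∑ j, if 0 < x i j then max 0 (-Real.log (T * x i j)) else 0 := by
  classical
  obtain ⟨G, iG, iC, x, y, K, iN, ha, hi, hf, hcof, hfr, iI, hcl, hT⟩ := exists_small_eigs_cof
  obtain ⟨c, g, h1, hx, hy, hr⟩ :=
    exists_labels x fun j : Fin 3 => x ^ (j : ℕ) * y * (x ^ (j : ℕ))⁻¹
  let iF : ∀ i, Fintype (G ⧸ K i) := fun i =>
    have := hf i
    Fintype.ofFinite _
  have hM : ∀ i, (rep ((reg (G ⧸ K i)).comp (QuotientGroup.mk' (K i)))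
        (elt x fun j => x ^ (j : ℕ) * y * (x ^ (j : ℕ))⁻¹) *
      (rep ((reg (G ⧸ K i)).comp (QuotientGroup.mk' (K i)))
        (elt x fun j => x ^ (j : ℕ) * y * (x ^ (j : ℕ))⁻¹))ᵀ).IsHermitian := fun i => by
    rw [← conjTranspose_eq_transpose_of_trivial]
    exact isHermitian_mul_conjTranspose_self _
  refine ⟨c, G, iG, iC, g, K, iN, iF, fun i => (hM i).eigenvalues, ha, hi, hf, hcof, hfr, h1,
    ?_, ?_, ?_, ?_⟩
  · rw [eq_top_iff, ← hcl, Subgroup.closure_le]
    have h2 : x ∈ Subgroup.closure (range g) := Subgroup.subset_closure hx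
    have h3 := mul_mem (inv_mem h2) (Subgroup.subset_closure (hy 0))
    rintro z (rfl | rfl)
    · exact h2
    · simpa using h3
  · intro d
    filter_upwards [tendsto_card_quot K ha hi hf d] with i h
    rwa [Nat.card_eq_fintype_card] at h
  · intro i s
    exact exists_small_space_grp c (fun e => (g e : G ⧸ K i)) _
      (hr ((reg (G ⧸ K i)).comp (QuotientGroup.mk' (K i)))) (hM i) s
  · intro T h
    filter_upwards [hT T h] with i h2
    exact h2 (hM i)

end Pool.Agent.Lib.MP_570070_gt.An
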